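import Pool.Agent.Lib.MP_098ea1_pr.Mg.G001
import Pool.Agent.Lib.MP_098ea1_pr.Mg.G003
import Pool.Agent.Lib.MP_098ea1_pr.Mg.G006
import Pool.Agent.Lib.MP_098ea1_pr.Mg.G004

/-!
# TASK BR CO: the two estimates

Let `qL < 1` from `loc_bound`, `K` from `out_bound`, `C` from `in_bound`. `γ = qL^(1/5) < 1`, `q = √((1+γ)/2)`, `0 < q < 1`. Choose `N ≥ 2`, `N ≥ K`, with `2 (C/N^48)^(1/5) + 2 (K/N)^(1/5) ≤ (1-γ)/2` and
`C ≤ q² N^12` (all hold for large `N`: limits; `Filter.eventually_atTop`).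
`inE`: `C/N^48 ≤ q²/N^36 = (q/N^18)²`.
`fail`: `types_bound` with `τ = Fin 5` and the events `InE (fwd)`, `InE (bwd)`, `OutE univ (fwd)`, `OutE univ (bwd)` (it contains `OutE (Iic (c - τ)) (bwd)`), `UnsE (fwd) ∨ UnsE (bwd)`, with the numbers `C/N^48`, `C/N^48`, `K/N`, `K/N`, `qL`:
`in_bound` and `out_bound` for the Brownian motions of `BM_shift` and `BM_reverse` (their path is `fwd (path W ω) c`, `bwd (path W ω) c` by definition), `loc_bound`. The sum of the fifth roots is at most `γ + (1-γ)/2 = q²`.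
-/

set_option autoImplicit false

open MeasureTheory ProbabilityTheory Set Filter Topology
open scoped NNReal ENNReal

namespace Pool.Agent.Lib.MP_098ea1_pr.BR

universe u

private theorem CO_tendsto (C : ℝ) (m : ℕ) (hm : m ≠ 0) :
    Tendsto (fun N : ℕ => (C / (N : ℝ) ^ m) ^ ((5 : ℝ)⁻¹)) atTop (𝓝 0) := by
  have h1 : Tendsto (fun N : ℕ => (N : ℝ) ^ m) atTop atTop :=
    (tendsto_pow_atTop hm).comp tendsto_natCast_atTop_atTop
  have h2 : Tendsto (fun N : ℕ => C / (N : ℝ) ^ m) atTop (𝓝 0) := tendsto_const_nhds.div_atTop h1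
  have h3 : Tendsto (fun x : ℝ => x ^ ((5 : ℝ)⁻¹)) (𝓝 0) (𝓝 ((0 : ℝ) ^ ((5 : ℝ)⁻¹))) :=
    (Real.continuousAt_rpow_const 0 _ (Or.inr (by norm_num))).tendsto
  rw [Real.zero_rpow (by norm_num)] at h3
  exact h3.comp h2

theorem core_exists : ∃ (N : ℕ) (q : ℝ), Core.{u} N q := by
  obtain ⟨qL, hq0, hq1, hL⟩ := loc_bound.{u}
  obtain ⟨K, hK1, hK⟩ := out_bound.{u}
  obtain ⟨C, hC1, hC⟩ := in_bound.{u}
  have hγ0 : 0 ≤ qL ^ ((5 : ℝ)⁻¹) := Real.rpow_nonneg hq0 _
  have hγ1 : qL ^ ((5 : ℝ)⁻¹) < 1 := Real.rpow_lt_one hq0 hq1 (by norm_num)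
  set γ : ℝ := qL ^ ((5 : ℝ)⁻¹) with hγ
  have hs : 0 < (1 + γ) / 2 := by linarith
  have hsq : √((1 + γ) / 2) ^ 2 = (1 + γ) / 2 := Real.sq_sqrt hs.le
  have hsp : 0 < √((1 + γ) / 2) := Real.sqrt_pos.2 hs
  set q : ℝ := √((1 + γ) / 2) with hq
  have hqlt : q < 1 := by
    by_contra hcon
    push Not at hcon
    nlinarith
  -- the choice of N
  have t1 : Tendsto (fun N : ℕ => 2 * (C / (N : ℝ) ^ 48) ^ ((5 : ℝ)⁻¹) + 2 * (K / (N : ℝ) ^ 1) ^ ((5 : ℝ)⁻¹))
      atTop (𝓝 0) := by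
    have h := ((CO_tendsto C 48 (by norm_num)).const_mul 2).add ((CO_tendsto K 1 (by norm_num)).const_mul 2)
    simpa using h
  have e1 := t1.eventually (gt_mem_nhds (show (0 : ℝ) < (1 - γ) / 2 by linarith))
  have e2 : ∀ᶠ N : ℕ in atTop, K ≤ (N : ℝ) := tendsto_natCast_atTop_atTop.eventually_ge_atTop K
  have e3 : ∀ᶠ N : ℕ in atTop, C / q ^ 2 ≤ (N : ℝ) ^ 12 :=
    ((tendsto_pow_atTop (by norm_num)).comp tendsto_natCast_atTop_atTop).eventually_ge_atTop (C / q ^ 2)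
  obtain ⟨N, ⟨⟨hN1, hN2⟩, hN3⟩, hN4⟩ := (((e1.and e2).and e3).and (eventually_ge_atTop 2)).exists
  rw [pow_one] at hN1
  have hNpos : (0 : ℝ) < N := by exact_mod_cast (by omega : 0 < N)
  have hq2 : 0 < q ^ 2 := by positivity
  refine ⟨N, q, hN4, hsp, hqlt, ?_, ?_⟩
  · intro Ω _ P _ W hW i τ c A hτ hA
    have hf := BM_shift hW c
    have hb := BM_reverse hW c
    have hAc : ∀ k ∈ A, e N k ≤ c := fun k hk => (hA k hk).trans tsub_le_self
    have h := types_bound P A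
      (fun t : Fin 5 => (![fun k => {ω | InE N k (fwd (path W ω) c)}, fun k => {ω | InE N k (bwd (path W ω) c)},
        fun k => {ω | OutE N k Set.univ (fwd (path W ω) c)}, fun k => {ω | OutE N k Set.univ (bwd (path W ω) c)},
        fun k => {ω | UnsE N k i (fwd (path W ω) c) ∨ UnsE N k i (bwd (path W ω) c)}] : Fin 5 → ℕ → Set Ω) t)
      (![C / (N : ℝ) ^ 48, C / (N : ℝ) ^ 48, K / N, K / N, qL] : Fin 5 → ℝ)
      (by
        intro t
        fin_cases t
        · exact div_nonneg (by linarith) (by positivity)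
        · exact div_nonneg (by linarith) (by positivity)
        · exact div_nonneg (by linarith) hNpos.le
        · exact div_nonneg (by linarith) hNpos.le
        · exact hq0)
      (by
        intro t B hB
        fin_cases t
        · exact hC P (fun x ω => fwd (path W ω) c x) hf N hN4 B
        · exact hC P (fun x ω => bwd (path W ω) c x) hb N hN4 B
        · exact hK P (fun x ω => fwd (path W ω) c x) hf N hN4 hN2 B
        · exact hK P (fun x ω => bwd (path W ω) c x) hb N hN4 hN2 B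
        · exact hL P W hW N i c B hN4 fun k hk => hAc k (hB hk))
    refine (measure_mono ?_).trans (h.trans (ENNReal.ofReal_le_ofReal ?_))
    · intro ω hω k hk
      rcases hω k hk with h1 | h1 | h1 | h1 | h1
      · exact ⟨0, h1⟩
      · exact ⟨1, h1⟩
      · exact ⟨2, h1⟩
      · obtain ⟨x, hx, hx2⟩ := h1
        exact ⟨3, x, ⟨hx.1, Set.mem_univ _⟩, hx2⟩
      · exact ⟨4, h1⟩
    · rw [pow_mul]
      have h5 : ∀ x : ℝ, x ^ (((Fintype.card (Fin 5) : ℕ) : ℝ)⁻¹) = x ^ ((5 : ℝ)⁻¹) := by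
        intro x
        rw [Fintype.card_fin]
        norm_num
      have h6 : ∑ t : Fin 5, (![C / (N : ℝ) ^ 48, C / (N : ℝ) ^ 48, K / N, K / N, qL] : Fin 5 → ℝ) t ^
          (((Fintype.card (Fin 5) : ℕ) : ℝ)⁻¹) =
          2 * (C / (N : ℝ) ^ 48) ^ ((5 : ℝ)⁻¹) + 2 * (K / (N : ℝ)) ^ ((5 : ℝ)⁻¹) + γ := by
        simp only [h5, Fin.sum_univ_five, Matrix.cons_val]
        ring
      have h7 : ∀ t : Fin 5, 0 ≤ (![C / (N : ℝ) ^ 48, C / (N : ℝ) ^ 48, K / N, K / N, qL] : Fin 5 → ℝ) t := by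
        intro t
        fin_cases t
        · exact div_nonneg (by linarith) (by positivity)
        · exact div_nonneg (by linarith) (by positivity)
        · exact div_nonneg (by linarith) hNpos.le
        · exact div_nonneg (by linarith) hNpos.le
        · exact hq0
      refine pow_le_pow_left₀ (Finset.sum_nonneg fun t _ => Real.rpow_nonneg (h7 t) _) ?_ _
      rw [h6, hsq]
      linarith
  · intro Ω _ P _ W hW A
    refine (hC P W hW N hN4 A).trans (ENNReal.ofReal_le_ofReal ?_)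
    rw [pow_mul]
    refine pow_le_pow_left₀ (div_nonneg (by linarith) (by positivity)) ?_ _
    rw [div_pow, div_le_div_iff₀ (by positivity) (by positivity)]
    have h8 : C ≤ q ^ 2 * (N : ℝ) ^ 12 := by
      rw [div_le_iff₀ hq2] at hN3
      linarith
    calc C * ((N : ℝ) ^ 18) ^ 2 ≤ (q ^ 2 * (N : ℝ) ^ 12) * ((N : ℝ) ^ 18) ^ 2 :=
          mul_le_mul_of_nonneg_right h8 (by positivity)
      _ = q ^ 2 * (N : ℝ) ^ 48 := by ring

end Pool.Agent.Lib.MP_098ea1_pr.BR
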