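import Mathlib

/-!
# The topological Hausdorff dimension and three-dimensional Brownian motion: the definitions of the statement

* `hdim`: Hausdorff dimension with the convention `hdim ∅ = -1`.
* `dimTH`: the topological Hausdorff dimension of a metric space.
* `IsBM3`: three-dimensional Brownian motion in the Euclidean space.
-/

set_option autoImplicit false

open MeasureTheory ProbabilityTheory Set
open scoped NNReal ENNReal

namespace Pool.Agent.Lib.MP_098ea1_pr.BR

universe u

/-- Hausdorff dimension with the convention `hdim ∅ = -1`. -/
noncomputable def hdim {X : Type*} [MetricSpace X] (A : Set X) : EReal :=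
  open scoped Classical in if A = ∅ then -1 else ((dimH A : ℝ≥0∞) : EReal)

/-- The topological Hausdorff dimension of a metric space. -/
noncomputable def dimTH (X : Type*) [MetricSpace X] : EReal :=
  open scoped Classical in
  if IsEmpty X then -1 else
    sInf {c : EReal | 0 ≤ c ∧ ∃ 𝓑 : Set (Set X), TopologicalSpace.IsTopologicalBasis 𝓑 ∧
      ∀ U ∈ 𝓑, hdim (frontier U) ≤ c - 1}

/-- Three-dimensional Brownian motion in the Euclidean space: the coordinates are independent one-dimensional
Brownian motions. -/
structure IsBM3 {Ω : Type u} [MeasurableSpace Ω] (W : ℝ≥0 → Ω → EuclideanSpace ℝ (Fin 3)) (P : Measure Ω) : Prop where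
  coord : ∀ i, IsBrownianReal (fun t ω => W t ω i) P
  indep : iIndepFun (fun i ω t => W t ω i) P

end Pool.Agent.Lib.MP_098ea1_pr.BR
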