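import Pool.Agent.Lib.MP_098ea1_pr.Mg.G001
import Pool.Agent.Lib.MP_098ea1_pr.BR.CO
import Pool.Agent.Lib.MP_098ea1_pr.Mg.G005
import Pool.Agent.Lib.MP_098ea1_pr.Mg.G004

/-!
# BR Main: the theorem
The theorem is assembled from the basis of modified half spaces, the transfer to the Euclidean metric and the decomposition.
-/

set_option autoImplicit false

open MeasureTheory ProbabilityTheory Set Filter Topology
open scoped NNReal ENNReal

namespace Pool.Agent.Lib.MP_098ea1_pr.BR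

universe u

/-- There is `δ > 0` such that the range of every three-dimensional Brownian motion almost surely has topological Hausdorff dimension at most `2 - δ`, a basis of relatively open
sets with boundaries of dimension at most `1 - δ`, and a decomposition into a totally disconnected set and a set of dimension at most `1 - δ`. -/
theorem main : ∃ δ : ℝ, 0 < δ ∧ δ ≤ 1 ∧ ∀ {Ω : Type u} [MeasurableSpace Ω] (P : Measure Ω)
    (W : ℝ≥0 → Ω → EuclideanSpace ℝ (Fin 3)), IsBM3 W P → ∀ᵐ ω ∂P,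
      dimTH (Set.range (fun t => W t ω)) ≤ ((2 - δ : ℝ) : EReal) ∧
      (∃ 𝓑 : Set (Set (Set.range (fun t => W t ω))), TopologicalSpace.IsTopologicalBasis 𝓑 ∧
        ∀ U ∈ 𝓑, dimH (frontier U) ≤ ENNReal.ofReal (1 - δ)) ∧
      ∃ T S : Set (EuclideanSpace ℝ (Fin 3)), T ∪ S = Set.range (fun t => W t ω) ∧ IsTotallyDisconnected T ∧
        dimH S ≤ ENNReal.ofReal (1 - δ) := by
  obtain ⟨N, q, hC⟩ := core_exists.{u}
  obtain ⟨δ, hδ, hδ1, hbad⟩ := bad_dim hC
  refine ⟨δ, hδ, hδ1, ?_⟩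
  intro Ω _ P W hW
  have hP : IsProbabilityMeasure P := IsBM3_prob hW
  obtain ⟨W', hW', hae⟩ := regularize hW
  filter_upwards [hae, hbad P W' hW'] with ω h1 h2
  have hrange : toV '' (Set.range (fun t => W t ω)) = Set.range (path W' ω) := by
    rw [← Set.range_comp]
    congr 1
    funext t
    exact h1 t
  have hbasis : ∃ 𝓑 : Set (Set (toV '' (Set.range (fun t => W t ω)))), TopologicalSpace.IsTopologicalBasis 𝓑 ∧
      ∀ U ∈ 𝓑, dimH (frontier U) ≤ ENNReal.ofReal (1 - δ) := by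
    rw [hrange]
    exact basis_of_bad hC.hN _ _ h2
  have hb := transfer_basis _ _ hbasis
  obtain ⟨𝓑, hB, hBd⟩ := hb
  have hne : Nonempty (Set.range (fun t => W t ω)) := ⟨⟨W 0 ω, ⟨0, rfl⟩⟩⟩
  refine ⟨dimTH_le δ hδ hδ1 𝓑 hB hBd, ⟨𝓑, hB, hBd⟩, ?_⟩
  obtain ⟨T, S, hTS, hT, hS⟩ := decomp _ 𝓑 hB hBd
  refine ⟨Subtype.val '' T, Subtype.val '' S, ?_, ?_, ?_⟩
  · rw [← Set.image_union, hTS, Set.image_univ, Subtype.range_coe]
  · exact (Topology.IsEmbedding.subtypeVal.isTotallyDisconnected_image).mpr hT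
  · rw [(isometry_subtype_coe).dimH_image]
    exact hS

end Pool.Agent.Lib.MP_098ea1_pr.BR
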